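import Mathlib
import Pool.Agent.H60.IP.Don4

set_option autoImplicit false

/-! The invariance principle for whole trajectories of the `3x+1` function. -/

namespace Pool.Agent.Results.MP_a1568a_nt.InvariancePrinciple

open Filter Topology MeasureTheory ProbabilityTheory
open scoped NNReal

/-- the `3x+1` function -/
def T (n : ℕ) : ℕ := if n % 2 = 0 then n / 2 else (3 * n + 1) / 2

/-- the total stopping time of `n` (for the `n` that reach `1`) -/
noncomputable def stop (n : ℕ) : ℕ := sInf {k | T^[k] n = 1}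

/-- the normal order `2 log N / log (4 / 3)` of the total stopping time, rounded down -/
noncomputable def len (N : ℕ) : ℕ := ⌊2 * Real.log N / Real.log (4 / 3)⌋₊

/-- the number of the `n` with `1 ≤ n ≤ N` that reach `1` and have the property `P` -/
noncomputable def count (P : ℕ → Prop) (N : ℕ) : ℝ :=
  ({n : ℕ | 1 ≤ n ∧ n ≤ N ∧ (∃ k, T^[k] n = 1) ∧ P n}.ncard : ℝ)

open Classical in
/-- the mean of `h` over the `n` with `1 ≤ n ≤ N` that reach `1` -/
noncomputable def mean (N : ℕ) (h : ℕ → ℝ) : ℝ :=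
  (∑ n ∈ (Finset.Icc 1 N).filter (fun n => ∃ k, T^[k] n = 1), h n) / count (fun _ => True) N

/-- the rescaled trajectory of `n`: `log (T^j n)` minus its expected value
`log n - j / 2 * log (4 / 3)`, at the time `j = ⌊t * len N⌋` or at the total stopping time if this
is smaller, divided by `log 3 / 2 * √(len N)` -/
noncomputable def traj (N n : ℕ) (t : ℝ) : ℝ :=
  (Real.log ((T^[min ⌊t * (len N : ℝ)⌋₊ (stop n)] n : ℕ) : ℝ) - (Real.log n -
    ((min ⌊t * (len N : ℝ)⌋₊ (stop n) : ℕ) : ℝ) / 2 * Real.log (4 / 3))) /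
      (Real.log 3 / 2 * √(len N : ℝ))

/-- the path of `n`: the number of odd terms minus the number of even terms among the first `j`
terms `n, T n, ..., T^(j-1) n`, stopped at the total stopping time -/
noncomputable def path (n j : ℕ) : ℝ :=
  ∑ i ∈ Finset.range (min j (stop n)), if T^[i] n % 2 = 1 then (1 : ℝ) else -1

/-- the simple random walk with the coin tosses `e` -/
noncomputable def walk {L : ℕ} (e : Fin L → Bool) (j : ℕ) : ℝ :=
  ∑ i : Fin L, if (i : ℕ) < j then (if e i then (1 : ℝ) else -1) else 0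

/-- the probability, for `L` fair coin tosses, that the walk is in the set `S` of functions -/
noncomputable def prob (L : ℕ) (S : Set (ℕ → ℝ)) : ℝ :=
  ({e : Fin L → Bool | walk e ∈ S}.ncard : ℝ) / 2 ^ L

/-- the functions at distance at most `r` from a member of `S`, for the maximum norm on
`0, 1, ..., L` -/
def nbhd (L : ℕ) (r : ℝ) (S : Set (ℕ → ℝ)) : Set (ℕ → ℝ) := {g | ∃ f ∈ S, ∀ j ≤ L, |f j - g j| ≤ r}

lemma count_eq (P : ℕ → Prop) (N : ℕ) :
    count P N = Pool.Agent.H499R2.ND.cnt (fun n => Pool.Agent.H499R2.ND.Bas n ∧ P n) N := rfl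

lemma count_true (N : ℕ) :
    count (fun _ => True) N = Pool.Agent.H499R2.ND.cnt Pool.Agent.H499R2.ND.Bas N := by
  rw [count_eq]
  simp

lemma mean_eq (N : ℕ) (h : ℕ → ℝ) : mean N h = Pool.Agent.H60.IP.SB N h /
    Pool.Agent.H499R2.ND.cnt Pool.Agent.H499R2.ND.Bas N := by
  rw [← count_true]
  rfl

lemma traj_eq (N n : ℕ) : traj N n = Pool.Agent.H60.IP.Yn N n := rfl

lemma path_eq (n : ℕ) : path n = Pool.Agent.H60.IP.pth n := by
  funext j
  unfold path Pool.Agent.H60.IP.pth Pool.Agent.H46.CO.dn Pool.Agent.H46.CO.dv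
  apply Finset.sum_congr rfl
  intro i _
  rw [Pool.Agent.H499R2.ND.Td_iter_cast]
  have e : T = Pool.Agent.H499R2.ND.Tn := rfl
  rw [← e]
  by_cases h : T^[i] n % 2 = 1
  · rw [if_pos h, if_pos (by omega)]
  · rw [if_neg h, if_neg (by omega)]

lemma walk_eq {L : ℕ} (e : Fin L → Bool) : walk e = Pool.Agent.H46.CO.wk e := rfl

lemma prob_eq (L : ℕ) (S : Set (ℕ → ℝ)) : prob L S = Pool.Agent.H60.IP.Pw L S := by
  classical
  unfold prob Pool.Agent.H60.IP.Pw Pool.Agent.H46.CO.np
  congr 2
  rw [← Set.ncard_coe_finset]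
  congr 1
  ext e
  simp [walk_eq]

lemma nbhd_eq (L : ℕ) (r : ℝ) (S : Set (ℕ → ℝ)) : nbhd L r S = Pool.Agent.H60.IP.Nb L S r := rfl

/-- THE INVARIANCE PRINCIPLE FOR WHOLE TRAJECTORIES. The integers that reach `1` have a positive
natural density `δ`, equal to `1` iff all positive integers reach `1`.

(i) Brownian motion: for `n` uniformly distributed among the integers up to `N` that reach `1`,
the rescaled trajectory `traj N n`, down to `1`, converges in law, for the maximum norm on
`[0, ∞)`, to the Brownian motion stopped at the time `1`: the means of all bounded Lipschitz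
functionals converge.

(ii) The law of the path of `n` (at all times up to `len N`) is close to the law of the simple
random walk of length `len N`, in both directions and uniformly in all the sets `S` of functions:
up to `ε` in probability and up to `ε √(log N)` in the maximum norm.

(iii) For all but `ε N` of the `n` up to `N` that reach `1`, the path is constant up to
`ε √(log N)` after the time `len N`, and the path up to the time `len N` determines, up to
`ε √(log N)`, the logarithms of all the terms of the trajectory down to `1`, and the total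
stopping time. -/
theorem result : ∃ δ : ℝ, 0 < δ ∧ δ ≤ 1 ∧ (δ = 1 ↔ ∀ n : ℕ, 1 ≤ n → ∃ k, T^[k] n = 1) ∧
    Tendsto (fun N : ℕ => count (fun _ => True) N / N) atTop (𝓝 δ) ∧
    (∀ (Ω : Type) (_ : MeasurableSpace Ω) (P : Measure Ω) (B : ℝ≥0 → Ω → ℝ), IsBrownianReal B P →
      ∀ (C : ℝ) (F : (ℝ → ℝ) → ℝ), (∀ f, |F f| ≤ C) →
        (∀ (f g : ℝ → ℝ) (r : ℝ), (∀ t, 0 ≤ t → |f t - g t| ≤ r) → |F f - F g| ≤ C * r) →
        Tendsto (fun N : ℕ => mean N (fun n => F (traj N n))) atTop
          (𝓝 (∫ ω, F (fun t => B (Real.toNNReal (min t 1)) ω) ∂P))) ∧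
    ∀ ε : ℝ, 0 < ε → ∀ᶠ N : ℕ in atTop,
      (∀ S : Set (ℕ → ℝ),
        count (fun n => path n ∈ S) N ≤
          (δ * prob (len N) (nbhd (len N) (ε * √(Real.log N)) S) + ε) * N ∧
        (δ * prob (len N) S - ε) * N ≤
          count (fun n => path n ∈ nbhd (len N) (ε * √(Real.log N)) S) N) ∧
      count (fun n => ¬ ((∀ j, |path n j - path n (min j (len N))| ≤ ε * √(Real.log N)) ∧
        (∀ j ≤ stop n, |Real.log ((T^[j] n : ℕ) : ℝ) -
          (Real.log n - j / 2 * Real.log (4 / 3) + Real.log 3 / 2 * path n (min j (len N)))| ≤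
            ε * √(Real.log N)) ∧
        |stop n / 2 * Real.log (4 / 3) - (Real.log n + Real.log 3 / 2 * path n (len N))| ≤
          ε * √(Real.log N))) N ≤ ε * N := by
  obtain ⟨δ, h1, h2, h3, h4, h5⟩ := Pool.Agent.H60.IP.Bz_dens
  refine ⟨δ, h1, h2, h3, ?_, ?_, ?_⟩
  · refine h4.congr fun N => ?_
    rw [count_true]
  · intro Ω _ P B hB C F hF1 hF2
    obtain ⟨K, hK⟩ : ∃ K : ℝ, K = max C 1 := ⟨_, rfl⟩
    have hK0 : 0 < K := by rw [hK]; exact lt_of_lt_of_le one_pos (le_max_right _ _)
    have hCK : C ≤ K := by rw [hK]; exact le_max_left _ _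
    have hLF : Pool.Agent.H60.IP.LF (fun f => K⁻¹ * F f) := by
      constructor
      · intro f
        rw [abs_mul, abs_of_pos (inv_pos.2 hK0), ← div_eq_inv_mul, div_le_one hK0]
        exact (hF1 f).trans hCK
      · intro f g r h
        have hr : 0 ≤ r := (abs_nonneg _).trans (h 0 le_rfl)
        rw [← mul_sub, abs_mul, abs_of_pos (inv_pos.2 hK0), ← div_eq_inv_mul, div_le_iff₀ hK0]
        have h6 := hF2 f g r h
        have h7 : C * r ≤ K * r := mul_le_mul_of_nonneg_right hCK hr
        linarith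
    have h6 := (Pool.Agent.H60.IP.donsker hB hLF).comp Pool.Agent.H60.IP.Ln_large
    have h7 : Tendsto (fun N : ℕ => Pool.Agent.H60.IP.SB N (fun n => K⁻¹ * F (Pool.Agent.H60.IP.Yn N n)) / N -
        δ * Pool.Agent.H60.IP.Aw (fun f => K⁻¹ * F f) (Pool.Agent.H60.IP.Ln N)) atTop (𝓝 0) := by
      rw [Metric.tendsto_nhds]
      intro ε hε
      filter_upwards [Pool.Agent.H60.IP.functionals h1.le h2 h5 h4 (show 0 < ε / 2 by positivity),
        eventually_ge_atTop 1] with N hN hN1
      have hN0 : (0 : ℝ) < N := by exact_mod_cast hN1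
      have h8 := hN _ hLF
      rw [Real.dist_eq, sub_zero]
      have e1 : Pool.Agent.H60.IP.SB N (fun n => K⁻¹ * F (Pool.Agent.H60.IP.Yn N n)) / N -
          δ * Pool.Agent.H60.IP.Aw (fun f => K⁻¹ * F f) (Pool.Agent.H60.IP.Ln N) =
          (Pool.Agent.H60.IP.SB N (fun n => K⁻¹ * F (Pool.Agent.H60.IP.Yn N n)) -
            δ * Pool.Agent.H60.IP.Aw (fun f => K⁻¹ * F f) (Pool.Agent.H60.IP.Ln N) * N) / N := by
        field_simp
      rw [e1, abs_div, abs_of_pos hN0, div_lt_iff₀ hN0]
      refine lt_of_le_of_lt h8 ?_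
      nlinarith
    have h8 := h7.add (h6.const_mul δ)
    have h9 : Tendsto (fun N : ℕ => Pool.Agent.H60.IP.SB N (fun n => K⁻¹ * F (Pool.Agent.H60.IP.Yn N n)) / N) atTop
        (𝓝 (0 + δ * ∫ ω, K⁻¹ * F (fun t => B (Real.toNNReal (min t 1)) ω) ∂P)) := by
      refine h8.congr fun N => ?_
      show Pool.Agent.H60.IP.SB N (fun n => K⁻¹ * F (Pool.Agent.H60.IP.Yn N n)) / N -
        δ * Pool.Agent.H60.IP.Aw (fun f => K⁻¹ * F f) (Pool.Agent.H60.IP.Ln N) +
        δ * Pool.Agent.H60.IP.Aw (fun f => K⁻¹ * F f) (Pool.Agent.H60.IP.Ln N) = _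
      ring
    have h10 := (h9.div h4 h1.ne').const_mul K
    have e2 : K * ((0 + δ * ∫ ω, K⁻¹ * F (fun t => B (Real.toNNReal (min t 1)) ω) ∂P) / δ) =
        ∫ ω, F (fun t => B (Real.toNNReal (min t 1)) ω) ∂P := by
      rw [integral_const_mul]
      have := h1.ne'
      field_simp
      ring
    rw [e2] at h10
    refine h10.congr' ?_
    filter_upwards [eventually_ge_atTop 1] with N hN1
    have hN0 : (N : ℝ) ≠ 0 := by
      have : (0 : ℝ) < N := by exact_mod_cast hN1
      exact this.ne'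
    rw [mean_eq]
    simp only [traj_eq, Pi.div_apply]
    rw [Pool.Agent.H60.IP.SB_mul, div_div_div_cancel_right₀ hN0]
    have := hK0.ne'
    field_simp
  · intro ε hε
    obtain ⟨e, he⟩ : ∃ e : ℝ, e = min ε 1 := ⟨_, rfl⟩
    have he0 : 0 < e := by rw [he]; exact lt_min hε one_pos
    have he1 : e ≤ 1 := by rw [he]; exact min_le_right _ _
    have heε : e ≤ ε := by rw [he]; exact min_le_left _ _
    filter_upwards [Pool.Agent.H60.IP.upper h1.le h2 h5 he0 he1, Pool.Agent.H60.IP.lower h1.le h2 h5 h4 he0 he1,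
      Pool.Agent.H60.IP.sizes he0 he1] with N hu hl hs
    have hN : (0 : ℝ) ≤ N := Nat.cast_nonneg _
    have hr : e * √(Real.log N) ≤ ε * √(Real.log N) := mul_le_mul_of_nonneg_right heε (Real.sqrt_nonneg _)
    refine ⟨fun S => ⟨?_, ?_⟩, ?_⟩
    · rw [count_eq, prob_eq, nbhd_eq]
      simp only [path_eq]
      refine (hu S).trans (mul_le_mul_of_nonneg_right ?_ hN)
      have h6 : Pool.Agent.H60.IP.Pw (len N) (Pool.Agent.H60.IP.Nb (len N) S (e * √(Real.log N))) ≤
          Pool.Agent.H60.IP.Pw (len N) (Pool.Agent.H60.IP.Nb (len N) S (ε * √(Real.log N))) := by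
        apply Pool.Agent.H60.IP.Pw_mono
        rintro w ⟨f, hf, hj⟩
        exact ⟨f, hf, fun j hjL => (hj j hjL).trans hr⟩
      exact add_le_add (mul_le_mul_of_nonneg_left h6 h1.le) heε
    · rw [count_eq, prob_eq, nbhd_eq]
      simp only [path_eq]
      have h6 : (δ * Pool.Agent.H60.IP.Pw (len N) S - ε) * N ≤ (δ * Pool.Agent.H60.IP.Pw (len N) S - e) * N :=
        mul_le_mul_of_nonneg_right (by linarith) hN
      refine h6.trans ((hl S).trans (Pool.Agent.H499R2.ND.cnt_mono N ?_))
      rintro n _ _ ⟨hB, f, hf, hj⟩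
      exact ⟨hB, f, hf, fun j hjL => (hj j hjL).trans hr⟩
    · rw [count_eq]
      simp only [path_eq]
      refine le_trans (Pool.Agent.H499R2.ND.cnt_mono N ?_) (hs.trans (mul_le_mul_of_nonneg_right heε hN))
      rintro n _ _ ⟨hB, hneg⟩
      refine ⟨hB, fun hall => hneg ?_⟩
      exact ⟨fun j => (hall.1 j).trans hr, fun j hj => (hall.2.1 j hj).trans hr, hall.2.2.trans hr⟩

end Pool.Agent.Results.MP_a1568a_nt.InvariancePrinciple
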