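import Mathlib
import Pool.Agent.H46.CO.Fin

set_option autoImplicit false

/-! The law of the iterated logarithm for whole trajectories of the `3x+1` function. -/

namespace Pool.Agent.Results.MP_a1568a_nt.IteratedLogarithm

open Filter Topology

/-- the `3x+1` function -/
def T (n : ℕ) : ℕ := if n % 2 = 0 then n / 2 else (3 * n + 1) / 2

/-- `t` is the total stopping time of `n` -/
def IsTotalStoppingTime (n t : ℕ) : Prop := T^[t] n = 1 ∧ ∀ j < t, T^[j] n ≠ 1

/-- the positive integers with the property `P` have the natural density `δ` -/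
def HasDensity (P : ℕ → Prop) (δ : ℝ) : Prop :=
  Tendsto (fun N : ℕ => ({n : ℕ | 1 ≤ n ∧ n ≤ N ∧ P n}.ncard : ℝ) / N) atTop (𝓝 δ)

/-- the number of odd terms among `n, T n, ..., T^(j-1) n`, minus `j / 2` -/
noncomputable def dev (j n : ℕ) : ℝ :=
  (((Finset.range j).filter fun i => T^[i] n % 2 = 1).card : ℝ) - j / 2

/-- `log (T^j n)`, minus its expected value `log n - j / 2 * log (4 / 3)` -/
noncomputable def sizeDev (j n : ℕ) : ℝ :=
  Real.log ((T^[j] n : ℕ) : ℝ) - (Real.log n - j / 2 * Real.log (4 / 3))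

/-- `√(j log log j / 2)`, the exact scale of the law of the iterated logarithm for the number of
heads in `j` fair coin tosses -/
noncomputable def lil (j : ℕ) : ℝ := Real.sqrt (j * Real.log (Real.log j) / 2)

/-- THE LAW OF THE ITERATED LOGARITHM FOR WHOLE TRAJECTORIES. The integers that reach `1` have a
positive natural density `δ`, equal to `1` iff all positive integers reach `1`. Moreover:

(upper half) for every `ε > 0` and every `f → ∞`, however slowly, almost all of the `n` that reach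
`1` have `|dev j n| ≤ (1 + ε) lil j` and `|sizeDev j n| ≤ (1 + ε) log 3 * lil j` at every time `j`
from `f n` up to the total stopping time;

(lower half, both signs) for every `0 < ε ≤ 1`, almost all integers `n` have a time `j` between
`(log n)^(1 - ε)` and `log n / 2` at which `dev j n ≥ (1 - ε) lil j` and
`sizeDev j n ≥ (1 - ε) log 3 * lil j`, and another such time at which
`dev j n ≤ - (1 - ε) lil j` and `sizeDev j n ≤ - (1 - ε) log 3 * lil j`. -/
theorem result : ∃ δ : ℝ, 0 < δ ∧ δ ≤ 1 ∧ (δ = 1 ↔ ∀ n : ℕ, 1 ≤ n → ∃ k, T^[k] n = 1) ∧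
    HasDensity (fun n => ∃ k, T^[k] n = 1) δ ∧
    (∀ (ε : ℝ) (f : ℕ → ℝ), 0 < ε → Tendsto f atTop atTop →
      HasDensity (fun n => ∃ t, IsTotalStoppingTime n t ∧ ∀ j : ℕ, f n ≤ j → j ≤ t →
        |dev j n| ≤ (1 + ε) * lil j ∧ |sizeDev j n| ≤ (1 + ε) * (Real.log 3 * lil j)) δ) ∧
    ∀ ε : ℝ, 0 < ε → ε ≤ 1 →
      HasDensity (fun n =>
        (∃ j : ℕ, Real.log n ^ (1 - ε) ≤ j ∧ (j : ℝ) ≤ Real.log n / 2 ∧
          (1 - ε) * lil j ≤ dev j n ∧ (1 - ε) * (Real.log 3 * lil j) ≤ sizeDev j n) ∧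
        ∃ j : ℕ, Real.log n ^ (1 - ε) ≤ j ∧ (j : ℝ) ≤ Real.log n / 2 ∧
          dev j n ≤ -((1 - ε) * lil j) ∧ sizeDev j n ≤ -((1 - ε) * (Real.log 3 * lil j))) 1 := by
  obtain ⟨δ, h0, h1, h2, h3⟩ := Pool.Agent.H499R2.ND.Bas_density
  exact ⟨δ, h0, h1, h2, h3,
    fun ε f hε hf => Pool.Agent.H46.CO.fin_three h3 ε hε f hf,
    fun ε hε hε1 => Pool.Agent.H46.CO.fin_four ε hε hε1⟩

end Pool.Agent.Results.MP_a1568a_nt.IteratedLogarithm
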