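import Mathlib
import Pool.Agent.H46.CO.Fin

set_option autoImplicit false

/-! A Gaussian maximal inequality for whole trajectories of the `3x+1` function. -/

namespace Pool.Agent.Results.MP_a1568a_nt.MaximalInequality

open Filter

/-- the `3x+1` function -/
def T (n : ℕ) : ℕ := if n % 2 = 0 then n / 2 else (3 * n + 1) / 2

/-- `t` is the total stopping time of `n` -/
def IsTotalStoppingTime (n t : ℕ) : Prop := T^[t] n = 1 ∧ ∀ j < t, T^[j] n ≠ 1

/-- the number of odd terms among `n, T n, ..., T^(j-1) n`, minus `j / 2` -/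
noncomputable def dev (j n : ℕ) : ℝ :=
  (((Finset.range j).filter fun i => T^[i] n % 2 = 1).card : ℝ) - j / 2

/-- `log (T^j n)`, minus its expected value `log n - j / 2 * log (4 / 3)` -/
noncomputable def sizeDev (j n : ℕ) : ℝ :=
  Real.log ((T^[j] n : ℕ) : ℝ) - (Real.log n - j / 2 * Real.log (4 / 3))

/-- A GAUSSIAN MAXIMAL INEQUALITY FOR WHOLE TRAJECTORIES. There are `C, c > 0` such that:

(all integers) for all `K ≥ 1`, `y ≥ 2` and all large `N`, at most
`C (exp (- c K²) + 1 / log y) N` of the `n ≤ N` have a time `j` with `|dev j n| > K √(log N)` and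
with `n, T n, ..., T^j n` all at least `y`;

(integers that reach `1`) for all `K ≥ 1`, `η > 0` and all large `N`, at most
`(C exp (- c K²) + η) N` of the `n ≤ N` that reach `1` have a time `j`, up to the total stopping
time, with `|dev j n| > K √(log N)` or `|sizeDev j n| > K √(log N)`. -/
theorem result : ∃ C c : ℝ, 0 < C ∧ 0 < c ∧
    (∀ K y : ℝ, 1 ≤ K → 2 ≤ y → ∀ᶠ N : ℕ in atTop,
      ({n : ℕ | 1 ≤ n ∧ n ≤ N ∧ ∃ j : ℕ, (∀ i ≤ j, y ≤ ((T^[i] n : ℕ) : ℝ)) ∧
        K * Real.sqrt (Real.log N) < |dev j n|}.ncard : ℝ) ≤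
        C * (Real.exp (-(c * K ^ 2)) + 1 / Real.log y) * N) ∧
    ∀ K η : ℝ, 1 ≤ K → 0 < η → ∀ᶠ N : ℕ in atTop,
      ({n : ℕ | 1 ≤ n ∧ n ≤ N ∧ ∃ t, IsTotalStoppingTime n t ∧ ∃ j ≤ t,
        K * Real.sqrt (Real.log N) < |dev j n| ∨
        K * Real.sqrt (Real.log N) < |sizeDev j n|}.ncard : ℝ) ≤
        (C * Real.exp (-(c * K ^ 2)) + η) * N :=
  Pool.Agent.H46.CO.fin_two

end Pool.Agent.Results.MP_a1568a_nt.MaximalInequality
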